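import Pool.Agent.MPcc1856.AllN

set_option autoImplicit false

/-!
For every `n` there is a two-coloured set of `n` points in general position in three-space, every
partition of which into monochromatic parts with pairwise disjoint convex hulls has at least
`(n - 1) / 54` parts.
-/

namespace Pool.Agent.Results.MP_cc1856_co.AllSizes

open Filter Topology

/-- General position: no four points of `X` lie on a common plane. -/
def GenPos (X : Finset (EuclideanSpace ℝ (Fin 3))) : Prop :=
  ∀ S ⊆ X, S.card = 4 → AffineIndependent ℝ (fun p : S => (p : EuclideanSpace ℝ (Fin 3)))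

/-- `P` is a partition of `X` into monochromatic parts with pairwise disjoint convex hulls. -/
def Good {X : Finset (EuclideanSpace ℝ (Fin 3))} (c : EuclideanSpace ℝ (Fin 3) → Bool)
    (P : Finpartition X) : Prop :=
  (∀ A ∈ P.parts, ∀ x ∈ A, ∀ y ∈ A, c x = c y) ∧
  ∀ A ∈ P.parts, ∀ B ∈ P.parts, A ≠ B →
    Disjoint (convexHull ℝ (A : Set (EuclideanSpace ℝ (Fin 3))))
      (convexHull ℝ (B : Set (EuclideanSpace ℝ (Fin 3))))

/-- The number `part_3(n, 2)`: the least `k` such that every two-coloured set of `n` points in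
general position has a partition into at most `k` monochromatic parts with pairwise disjoint
convex hulls. -/
noncomputable def part3 (n : ℕ) : ℕ :=
  sInf {k : ℕ | ∀ X : Finset (EuclideanSpace ℝ (Fin 3)), X.card = n → GenPos X →
    ∀ c : EuclideanSpace ℝ (Fin 3) → Bool, ∃ P : Finpartition X, Good c P ∧ P.parts.card ≤ k}

theorem lower (n : ℕ) : ∃ X : Finset (EuclideanSpace ℝ (Fin 3)), X.card = n ∧ GenPos X ∧
    ∃ c : EuclideanSpace ℝ (Fin 3) → Bool, ∀ P : Finpartition X, Good c P →
      n ≤ 54 * P.parts.card + 1 := by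
  classical
  obtain ⟨X, hX, hgen, c, hc⟩ := Pool.Agent.MPcc1856.main_all n
  refine ⟨X, hX, fun S hS h4 => hgen S hS h4, c, ?_⟩
  intro P hP
  rcases Nat.eq_zero_or_pos P.parts.card with h0 | hpos
  · have hemp : P.parts = ∅ := Finset.card_eq_zero.1 h0
    have hXe : X = ∅ := by
      rw [Finset.eq_empty_iff_forall_notMem]
      intro x hx
      obtain ⟨A, hA, _⟩ := P.exists_mem hx
      rw [hemp] at hA
      simp at hA
    rw [hXe] at hX
    simp at hX
    omega
  · let eqv : P.parts ≃ Fin P.parts.card := P.parts.equivFin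
    let f : EuclideanSpace ℝ (Fin 3) → Fin P.parts.card := fun x =>
      if hx : x ∈ X then eqv ⟨P.part x, P.part_mem.2 hx⟩ else ⟨0, hpos⟩
    have hf : ∀ x (hx : x ∈ X), f x = eqv ⟨P.part x, P.part_mem.2 hx⟩ := by
      intro x hx
      simp [f, hx]
    have hset : ∀ i : Fin P.parts.card,
        {x | x ∈ X ∧ f x = i} = (((eqv.symm i : P.parts) : Finset (EuclideanSpace ℝ (Fin 3))) :
          Set (EuclideanSpace ℝ (Fin 3))) := by
      intro i
      ext x
      simp only [Set.mem_ofPred_eq, Finset.mem_coe]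
      constructor
      · rintro ⟨hx, hfx⟩
        rw [hf x hx] at hfx
        rw [← hfx, Equiv.symm_apply_apply]
        exact P.mem_part hx
      · intro hx
        have hxX : x ∈ X := P.le (eqv.symm i).2 hx
        refine ⟨hxX, ?_⟩
        rw [hf x hxX]
        have : P.part x = ((eqv.symm i : P.parts) : Finset (EuclideanSpace ℝ (Fin 3))) :=
          P.part_eq_of_mem (eqv.symm i).2 hx
        have h2 : (⟨P.part x, P.part_mem.2 hxX⟩ : P.parts) = eqv.symm i := Subtype.ext this
        rw [h2, Equiv.apply_symm_apply]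
    refine hc P.parts.card f ?_ ?_
    · intro x hx y hy hxy
      rw [hf x hx, hf y hy] at hxy
      have h2 : P.part x = P.part y := congrArg Subtype.val (eqv.injective hxy)
      exact hP.1 (P.part x) (P.part_mem.2 hx) x (P.mem_part hx) y (h2 ▸ P.mem_part hy)
    · intro i j hij
      rw [hset i, hset j]
      refine hP.2 _ (eqv.symm i).2 _ (eqv.symm j).2 ?_
      intro h
      exact hij (eqv.symm.injective (Subtype.ext h))

/-- The singletons always form a good partition. -/
theorem good_bot (X : Finset (EuclideanSpace ℝ (Fin 3))) (c : EuclideanSpace ℝ (Fin 3) → Bool) :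
    Good c (⊥ : Finpartition X) := by
  classical
  constructor
  · intro A hA x hx y hy
    rw [Finpartition.parts_bot, Finset.mem_map] at hA
    obtain ⟨a, -, rfl⟩ := hA
    simp at hx hy
    rw [hx, hy]
  · intro A hA B hB hAB
    rw [Finpartition.parts_bot, Finset.mem_map] at hA hB
    obtain ⟨a, -, rfl⟩ := hA
    obtain ⟨b, -, rfl⟩ := hB
    simp at hAB ⊢
    exact hAB

theorem part3_mem (n : ℕ) : ∀ X : Finset (EuclideanSpace ℝ (Fin 3)), X.card = n → GenPos X →
    ∀ c : EuclideanSpace ℝ (Fin 3) → Bool,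
      ∃ P : Finpartition X, Good c P ∧ P.parts.card ≤ part3 n := by
  classical
  have h : (part3 n) ∈ {k : ℕ | ∀ X : Finset (EuclideanSpace ℝ (Fin 3)), X.card = n → GenPos X →
    ∀ c : EuclideanSpace ℝ (Fin 3) → Bool,
      ∃ P : Finpartition X, Good c P ∧ P.parts.card ≤ k} := by
    apply Nat.sInf_mem
    refine ⟨n, ?_⟩
    intro X hX _ c
    refine ⟨⊥, good_bot X c, ?_⟩
    rw [Finpartition.parts_bot, Finset.card_map, hX]
  exact h

/-- For every `n`, some two-coloured set of exactly `n` points in general position has only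
partitions with at least `(n - 1) / 54` parts; so `n ≤ 54 part_3(n, 2) + 1` for all `n`, and
`part_3(n, 2) / n` does not tend to `0`. -/
theorem result :
    (∀ n : ℕ, ∃ X : Finset (EuclideanSpace ℝ (Fin 3)), X.card = n ∧ GenPos X ∧
      ∃ c : EuclideanSpace ℝ (Fin 3) → Bool, ∀ P : Finpartition X, Good c P →
        n ≤ 54 * P.parts.card + 1) ∧
    (∀ n : ℕ, n ≤ 54 * part3 n + 1) ∧
    ¬ Tendsto (fun n : ℕ => (part3 n : ℝ) / (n : ℝ)) atTop (𝓝 0) := by
  have h2 : ∀ n : ℕ, n ≤ 54 * part3 n + 1 := by
    intro n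
    obtain ⟨X, hX, hg, c, hc⟩ := lower n
    obtain ⟨P, hP, hk⟩ := part3_mem n X hX hg c
    have := hc P hP
    omega
  refine ⟨lower, h2, ?_⟩
  intro h
  have h3 := (h.eventually (gt_mem_nhds (show (0 : ℝ) < 1 / 108 by norm_num))).and
    (eventually_ge_atTop 3)
  obtain ⟨n, hn, hn3⟩ := h3.exists
  have h4 : (n : ℝ) ≤ 54 * (part3 n : ℝ) + 1 := by exact_mod_cast h2 n
  have h5 : (3 : ℝ) ≤ n := by exact_mod_cast hn3
  rw [div_lt_iff₀ (by linarith)] at hn
  linarith

end Pool.Agent.Results.MP_cc1856_co.AllSizes
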